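import Pool.Agent.Q173.PT.Mld

/-!
# Lower semicontinuity of minimal log discrepancies up to a sublinear error
-/

set_option autoImplicit false

open Pool.Agent.Q173.PT

namespace Pool.Agent.Results.MP_f23696_ag.SublinearError

universe u

theorem result {V : Type u} (G : MldData V) (hG : G.IsKnown) :
    G.LSC ↔ ∀ ε : ℝ, 0 < ε → ∀ B : ℕ, ∃ n, B ≤ n ∧
      ∀ M, G.dim M = n → G.mld M ≤ G.near M + ε * n :=
  hG.criterion

end Pool.Agent.Results.MP_f23696_ag.SublinearError
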