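import Mathlib
import Pool.Agent.Q47.TV.EtLsc

/-!
# Lower semicontinuity of minimal log discrepancies on quotients of toroidal pairs

`X` is a complex affine variety, `B` an effective `ℝ`-divisor such that `K_X + B` is `ℝ`-Cartier, `G` a
finite group of automorphisms of `X` preserving log discrepancies, and `x` a closed point. The theorem
says that the minimal log discrepancy of the quotient `(X / G, B_Y)` is lower semicontinuous near the
image of `x` if every element `σ` of `G` which fixes `x` has an étale toric chart (`EtChart`): étale
morphisms `X ← U → X_σ`, where `X_σ` is an affine toric variety (any strictly convex rational cone of
any dimension at most `n`) with a torus invariant boundary, under which the pairs correspond, an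
automorphism `ρ` of `U` over `σ` and over a monomial automorphism of `X_σ`, and a fixed point `u` of `ρ`
over `x`. The morphisms enter through the following properties of étale morphisms (`IsEtale`, and
`near`): restriction of valuations is a bijection of the divisors over `u` and the divisors over its
image, with the same residue fields, and the fixed points of `ρ` near `u` cover the fixed points of `σ`
near `x` (`U^ρ → X^σ` is étale at `u`). Different elements of `G` may need different charts.

Remarks (not part of the formal statement). For `X` smooth and `B = 0` every `σ` has a chart: a
`σ`-invariant neighbourhood of `x` has an equivariant étale morphism to the tangent space. Thus all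
quotient singularities are included, as are toroidal pairs and the quotients of toroidal pairs by
groups whose elements are étale locally monomial, in particular the quotients of projective toric pairs
`(X, B)` by all finite groups of automorphisms: by Steinberg's theorem every element of finite order of
the linear algebraic group `Aut (X, B)` normalizes a maximal torus.

For the pair `(Y, B_Y)`, `Y = X / G`, with `K_X + B = π^* (K_Y + B_Y)`, every prime divisor `F` over `Y`
whose centre is the closed point `π (x)` is the image of a prime divisor `E` over `X` with centre `x`,
and `a(E, X, B) = r_E a(F, Y, B_Y)` with the ramification index `r_E`, the order of the inertia group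
of `E`. Therefore the minimal log discrepancy of `(Y, B_Y)` at `π (x)` is the infimum of
`a(E, X, B) / r_E` (`quotMld`).

Idea of the proof: let `E'` be a divisor over a closed point `x'` near `x`, let `σ` generate its inertia
group, of order `r`; then `σ` fixes `x'`, hence `x`. Inertia and the character of `σ` on the conormal
line are the same for the corresponding divisors over `U` and over `X_σ`. Let `W` be the action of `σ` on
the lattice of monomials of the chart. The eigenfunctions which are units times monomials minus
constants give `a(E', X, B) / r ≥ κ + c' + φ (u')`, where `exp (2 π i κ_j)`, `0 ≤ κ_j < 1`, are the
eigenvalues of `W`, `κ = ∑ κ_j`, `c'` is the dimension of the space spanned by the `W`-invariant monomials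
which do not vanish at the image of `x'`, and `φ` is the log discrepancy function on the face of the
cone which belongs to the image of `x`. Conversely one adds to `r u'` at most `c' - c` orbit sums of
edges, `c` the number `c'` for the point `x`, such that the sum vanishes exactly on the monomials which
do not vanish there, and constructs from it a divisor over `x` with
`a(E, X, B) / r_E ≤ κ + c' + φ (u')` by an embedding of the function field in `K((t))`. The same two
bounds, for the trivial group, show that `φ` is invariant under the automorphisms which fix the point.
-/

set_option autoImplicit false

namespace Pool.Agent.Results.MP_f23696_ag.ToroidalQuotients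

open Pool.Agent.TH165.ACC Pool.Agent.W497.Mld Pool.Agent.H436R3.KT Pool.Agent.H436R3.Fol Q47.QM Q47.TV

/-- Let `X` be a complex affine variety with function field `L`, `B` an effective `ℝ`-divisor on `X`
such that `K_X + B` is `ℝ`-Cartier (`E x`: a local equation at `x`), `G` a finite group of automorphisms
of `X` preserving log discrepancies, and `x` a closed point such that every element of `G` which fixes
`x` has an étale toric chart at `x`. Then `x` has a principal open neighbourhood on which the minimal
log discrepancy of the quotient is at least its value at the image of `x`. -/
theorem result (n : ℕ) (L : Type) [Field L] [Algebra ℂ L] (X : AffVar L)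
    (B : EffDiv X) (E : ∀ x : Pt X, LocEq B x) (G : Subgroup (L ≃ₐ[ℂ] L)) [Finite G]
    (hG : ∀ σ ∈ G, IsAutX E σ) (x : Pt X)
    (hx : ∀ σ ∈ G, FixesPt x σ →
      ∃ C : EtChart n (FractionRing (MvPolynomial (Fin n) ℂ)) E σ, C.pX C.u = x) :
    ∃ f : X.R, x f ≠ 0 ∧ ∀ x' : Pt X, x' f ≠ 0 → quotMld E G x ≤ quotMld E G x' :=
  lsc_etale G hG x hx

end Pool.Agent.Results.MP_f23696_ag.ToroidalQuotients
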